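import Mathlib

set_option autoImplicit false

/-!
A central Cantor set whose difference set has interior points although `0` is not one of them:
`a = (9/40, 11/31, 9/40, 11/31, ...)`, so that the terms are `c * 7 / 8 ^ k` and `c * 3 / 8 ^ k` with
`c = 7 / 80`.  The signed digits `0, ±3, ±4, ±7, ±10` contain all residues modulo `8`.
-/

namespace Pool.Agent.H24Z.CantorDiff

open Finset

noncomputable def a (n : ℕ) : ℝ := if n % 2 = 0 then 9 / 40 else 11 / 31

noncomputable def x (n : ℕ) : ℝ :=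
  (∏ i ∈ Finset.range n, (1 - a i) / 2) * (1 - (1 - a n) / 2)

noncomputable def f (ε : ℕ → Bool) : ℝ := ∑' n, if ε n = true then x n else 0

def D : Set ℝ := {z : ℝ | ∃ u ∈ Set.range f, ∃ v ∈ Set.range f, z = u - v}

lemma a_mem (n : ℕ) : 0 < a n ∧ a n < 1 := by
  unfold a; split_ifs <;> norm_num

lemma a_add_two (n : ℕ) : a (n + 2) = a n := by
  unfold a; simp

lemma a_zero : a 0 = 9 / 40 := by simp [a]
lemma a_one : a 1 = 11 / 31 := by simp [a]

lemma x_zero : x 0 = 49 / 80 := by simp [x, a_zero]; norm_num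
lemma x_one : x 1 = 21 / 80 := by simp [x, a_zero, a_one]; norm_num

lemma x_add_two (n : ℕ) : x (n + 2) = x n / 8 := by
  unfold x
  rw [Finset.prod_range_succ', Finset.prod_range_succ', a_add_two]
  have h : ∀ i, a (i + 1 + 1) = a i := fun i => a_add_two i
  simp only [h, zero_add, a_zero, a_one]
  ring

lemma x_bound (n : ℕ) : 0 ≤ x n ∧ x n ≤ (1 / 2 : ℝ) ^ n := by
  have h1 : ∀ i, 0 ≤ (1 - a i) / 2 ∧ (1 - a i) / 2 ≤ 1 / 2 := fun i => by
    have := a_mem i; constructor <;> linarith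
  have hp0 : 0 ≤ ∏ i ∈ Finset.range n, (1 - a i) / 2 := Finset.prod_nonneg fun i _ => (h1 i).1
  have hp1 : ∏ i ∈ Finset.range n, (1 - a i) / 2 ≤ (1 / 2 : ℝ) ^ n := by
    calc ∏ i ∈ Finset.range n, (1 - a i) / 2 ≤ ∏ _i ∈ Finset.range n, (1 / 2 : ℝ) :=
          Finset.prod_le_prod (fun i _ => (h1 i).1) (fun i _ => (h1 i).2)
      _ = (1 / 2 : ℝ) ^ n := by simp
  have := h1 n
  unfold x
  constructor
  · apply mul_nonneg hp0; linarith
  · calc _ ≤ (∏ i ∈ Finset.range n, (1 - a i) / 2) * 1 := by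
          apply mul_le_mul_of_nonneg_left _ hp0; linarith
      _ ≤ _ := by linarith

lemma summable_x : Summable x :=
  Summable.of_nonneg_of_le (fun n => (x_bound n).1) (fun n => (x_bound n).2)
    (summable_geometric_of_lt_one (by norm_num) (by norm_num))

lemma term_bound (ε : ℕ → Bool) (n : ℕ) :
    0 ≤ (if ε n = true then x n else 0) ∧ (if ε n = true then x n else 0) ≤ x n := by
  have := (x_bound n).1
  split_ifs <;> constructor <;> linarith

lemma summable_term (ε : ℕ → Bool) : Summable fun n => if ε n = true then x n else 0 :=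
  Summable.of_nonneg_of_le (fun n => (term_bound ε n).1) (fun n => (term_bound ε n).2) summable_x

lemma f_shift (ε : ℕ → Bool) :
    f ε = (if ε 0 = true then 49 / 80 else 0) + (if ε 1 = true then 21 / 80 else 0) +
      f (fun n => ε (n + 2)) / 8 := by
  unfold f
  rw [← (summable_term ε).sum_add_tsum_nat_add 2, ← tsum_div_const]
  simp only [Finset.sum_range_succ, Finset.range_zero, Finset.sum_empty, zero_add, x_zero, x_one,
    x_add_two]
  congr 1
  apply tsum_congr
  intro n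
  split_ifs <;> simp

lemma f_top : f (fun _ => true) = 1 := by
  have := f_shift (fun _ => true)
  simp only [if_true] at this
  linarith

lemma f_bound (ε : ℕ → Bool) : 0 ≤ f ε ∧ f ε ≤ 1 := by
  constructor
  · exact tsum_nonneg fun n => (term_bound ε n).1
  · rw [← f_top]
    unfold f
    apply Summable.tsum_le_tsum _ (summable_term ε) (summable_term _)
    intro n
    simpa using (term_bound ε n).2

lemma D_bound {z : ℝ} (hz : z ∈ D) : z ≤ 1 := by
  obtain ⟨_, ⟨ε, rfl⟩, _, ⟨δ, rfl⟩, rfl⟩ := hz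
  have := f_bound ε
  have := f_bound δ
  linarith

/-- small positive elements of `D` can be multiplied by `8` -/
lemma D_small {z : ℝ} (hz : z ∈ D) (h0 : 0 ≤ z) (h1 : z < 11 / 80) : 8 * z ∈ D := by
  obtain ⟨_, ⟨ε, rfl⟩, _, ⟨δ, rfl⟩, rfl⟩ := hz
  refine ⟨_, ⟨fun n => ε (n + 2), rfl⟩, _, ⟨fun n => δ (n + 2), rfl⟩, ?_⟩
  have e1 := f_shift ε
  have e2 := f_shift δ
  have b1 := f_bound (fun n => ε (n + 2))
  have b2 := f_bound (fun n => δ (n + 2))
  split_ifs at e1 e2 <;> linarith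

lemma not_mem_D (k : ℕ) : (21 / 160 : ℝ) / 8 ^ k ∉ D := by
  induction k with
  | zero =>
    intro h
    have := D_bound (D_small h (by norm_num) (by norm_num))
    norm_num at this
  | succ k ih =>
    intro h
    apply ih
    have h8 : (1 : ℝ) ≤ 8 ^ (k + 1) := one_le_pow₀ (by norm_num)
    have h2 : (21 / 160 : ℝ) / 8 ^ (k + 1) ≤ 21 / 160 := div_le_self (by norm_num) h8
    have := D_small h (by positivity) (by linarith)
    convert this using 1
    rw [pow_succ]
    field_simp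

lemma zero_not_mem_interior : (0 : ℝ) ∉ interior D := by
  intro h
  have h1 : D ∈ nhds (0 : ℝ) := mem_interior_iff_mem_nhds.mp h
  have h2 : Filter.Tendsto (fun k : ℕ => (21 / 160 : ℝ) / 8 ^ k) Filter.atTop (nhds 0) :=
    Filter.Tendsto.div_atTop tendsto_const_nhds (tendsto_pow_atTop_atTop_of_one_lt (by norm_num))
  obtain ⟨k, hk⟩ := (h2.eventually h1).exists
  exact not_mem_D k hk

lemma continuous_f : Continuous f := by
  unfold f
  apply continuous_tsum (u := x) _ summable_x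
  · intro n ε
    rw [Real.norm_of_nonneg (term_bound ε n).1]
    exact (term_bound ε n).2
  · intro n
    exact (continuous_of_discreteTopology
      (f := fun b : Bool => if b = true then x n else 0)).comp (continuous_apply n)

lemma isCompact_D : IsCompact D := by
  have : D = Set.range (fun p : (ℕ → Bool) × (ℕ → Bool) => f p.1 - f p.2) := by
    ext z
    constructor
    · rintro ⟨_, ⟨ε, rfl⟩, _, ⟨δ, rfl⟩, rfl⟩
      exact ⟨(ε, δ), rfl⟩
    · rintro ⟨p, rfl⟩
      exact ⟨_, ⟨p.1, rfl⟩, _, ⟨p.2, rfl⟩, rfl⟩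
  rw [this]
  exact isCompact_range ((continuous_f.comp continuous_fst).sub (continuous_f.comp continuous_snd))

/-- put two letters in front -/
def cons2 (b c : Bool) (ε : ℕ → Bool) : ℕ → Bool
  | 0 => b
  | 1 => c
  | n + 2 => ε n

lemma f_cons2 (b c : Bool) (ε : ℕ → Bool) :
    f (cons2 b c ε) = (if b = true then 49 / 80 else 0) + (if c = true then 21 / 80 else 0) +
      f ε / 8 := by
  rw [f_shift]; rfl

lemma D_digit {w : ℝ} (hw : w ∈ D) (b c b' c' : Bool) :
    ((if b = true then 49 / 80 else 0) + (if c = true then 21 / 80 else 0)) -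
      ((if b' = true then 49 / 80 else 0) + (if c' = true then 21 / 80 else 0)) + w / 8 ∈ D := by
  obtain ⟨_, ⟨ε, rfl⟩, _, ⟨δ, rfl⟩, rfl⟩ := hw
  refine ⟨_, ⟨cons2 b c ε, rfl⟩, _, ⟨cons2 b' c' δ, rfl⟩, ?_⟩
  rw [f_cons2, f_cons2]
  ring

/-- the union of the translates of `D` by the multiples of `7 / 10` -/
def L : Set ℝ := ⋃ m : ℤ, (fun w => (7 / 10 : ℝ) * m + w) '' D

lemma mem_L {y : ℝ} : y ∈ L ↔ ∃ m : ℤ, ∃ w ∈ D, (7 / 10 : ℝ) * m + w = y := by
  simp only [L, Set.mem_iUnion, Set.mem_image]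

lemma L_div {y : ℝ} (hy : y ∈ L) : y / 8 ∈ L := by
  obtain ⟨m, w, hw, rfl⟩ := mem_L.mp hy
  have key : ∀ (q : ℤ) (b c b' c' : Bool), (7 / 80 : ℝ) * m = 7 / 10 * q +
      (((if b = true then 49 / 80 else 0) + (if c = true then 21 / 80 else 0)) -
      ((if b' = true then 49 / 80 else 0) + (if c' = true then 21 / 80 else 0))) →
      ((7 / 10 : ℝ) * m + w) / 8 ∈ L := by
    intro q b c b' c' h
    refine mem_L.mpr ⟨q, _, D_digit hw b c b' c', ?_⟩
    linarith
  have hm : ∃ q : ℤ, m = 8 * q ∨ m = 8 * q - 7 ∨ m = 8 * q + 10 ∨ m = 8 * q + 3 ∨ m = 8 * q + 4 ∨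
      m = 8 * q - 3 ∨ m = 8 * q - 10 ∨ m = 8 * q + 7 := by
    have h8 : m % 8 = 0 ∨ m % 8 = 1 ∨ m % 8 = 2 ∨ m % 8 = 3 ∨ m % 8 = 4 ∨ m % 8 = 5 ∨ m % 8 = 6 ∨
      m % 8 = 7 := by omega
    rcases h8 with h | h | h | h | h | h | h | h
    · exact ⟨m / 8, by omega⟩
    · exact ⟨m / 8 + 1, by omega⟩
    · exact ⟨m / 8 - 1, by omega⟩
    · exact ⟨m / 8, by omega⟩
    · exact ⟨m / 8, by omega⟩
    · exact ⟨m / 8 + 1, by omega⟩
    · exact ⟨m / 8 + 2, by omega⟩
    · exact ⟨m / 8, by omega⟩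
  obtain ⟨q, h | h | h | h | h | h | h | h⟩ := hm
  · apply key q false false false false; rw [h]; push_cast; simp; ring
  · apply key q false false true false; rw [h]; push_cast; simp; ring
  · apply key q true true false false; rw [h]; push_cast; simp; ring
  · apply key q false true false false; rw [h]; push_cast; simp; ring
  · apply key q true false false true; rw [h]; push_cast; simp; ring
  · apply key q false false false true; rw [h]; push_cast; simp; ring
  · apply key q false false true true; rw [h]; push_cast; simp; ring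
  · apply key q true false false false; rw [h]; push_cast; simp; ring

lemma zero_mem_D : (0 : ℝ) ∈ D :=
  ⟨_, ⟨fun _ => true, rfl⟩, _, ⟨fun _ => true, rfl⟩, by simp⟩

lemma grid_mem_L (k : ℕ) (m : ℤ) : (7 / 10 : ℝ) * m / 8 ^ k ∈ L := by
  induction k with
  | zero => exact mem_L.mpr ⟨m, 0, zero_mem_D, by simp⟩
  | succ k ih =>
    have := L_div ih
    convert this using 1
    rw [pow_succ]
    field_simp

lemma isClosed_L : IsClosed L := by
  have h1 : IsClosed (Set.range fun m : ℤ => (7 / 10 : ℝ) * m) := by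
    have : (Set.range fun m : ℤ => (7 / 10 : ℝ) * m) =
        (fun y : ℝ => (10 / 7 : ℝ) * y) ⁻¹' Set.range (fun m : ℤ => (m : ℝ)) := by
      ext y
      simp only [Set.mem_range, Set.mem_preimage]
      constructor
      · rintro ⟨m, rfl⟩; exact ⟨m, by ring⟩
      · rintro ⟨m, hm⟩; exact ⟨m, by rw [hm]; ring⟩
    rw [this]
    exact Int.isClosedEmbedding_coe_real.isClosed_range.preimage (by fun_prop)
  have h2 := h1.add_right_of_isCompact isCompact_D
  convert h2 using 1
  ext y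
  rw [mem_L, Set.mem_add]
  constructor
  · rintro ⟨m, w, hw, rfl⟩; exact ⟨_, ⟨m, rfl⟩, w, hw, rfl⟩
  · rintro ⟨_, ⟨m, rfl⟩, w, hw, rfl⟩; exact ⟨m, w, hw, rfl⟩

lemma L_eq_univ : L = Set.univ := by
  apply Set.eq_univ_of_forall
  intro y
  rw [← isClosed_L.closure_eq, Metric.mem_closure_iff]
  intro e he
  obtain ⟨k, hk⟩ := pow_unbounded_of_one_lt (1 / e) (by norm_num : (1 : ℝ) < 8)
  have h8 : (0 : ℝ) < 8 ^ k := by positivity
  refine ⟨_, grid_mem_L k ⌊y * 8 ^ k * (10 / 7)⌋, ?_⟩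
  have h1 := Int.floor_le (y * 8 ^ k * (10 / 7))
  have h2 := Int.lt_floor_add_one (y * 8 ^ k * (10 / 7))
  rw [div_lt_iff₀ he] at hk
  rw [Real.dist_eq, abs_lt]
  constructor
  · have : (7 / 10 : ℝ) * ⌊y * 8 ^ k * (10 / 7)⌋ / 8 ^ k ≤ y := by
      rw [div_le_iff₀ h8]; linarith
    linarith
  · have : y - e < (7 / 10 : ℝ) * ⌊y * 8 ^ k * (10 / 7)⌋ / 8 ^ k := by
      rw [lt_div_iff₀ h8]; nlinarith
    linarith

lemma interior_nonempty : (interior D).Nonempty := by
  have hcl : ∀ m : ℤ, IsClosed ((fun w => (7 / 10 : ℝ) * m + w) '' D) := fun m =>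
    (isCompact_D.image (by fun_prop)).isClosed
  obtain ⟨m, y, hy⟩ := nonempty_interior_of_iUnion_of_closed hcl L_eq_univ
  have := (Homeomorph.addLeft ((7 / 10 : ℝ) * m)).image_interior D
  simp only [Homeomorph.coe_addLeft] at this
  rw [← this] at hy
  obtain ⟨w, hw, -⟩ := hy
  exact ⟨w, hw⟩

end Pool.Agent.H24Z.CantorDiff
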