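import Mathlib

set_option autoImplicit false

/-!
Powers of long cycles (with the antipodal matching added when the degree is odd) have no partition
in which every vertex has at least `d / 2 + 1` neighbours in its own part: two consecutive vertices
in different parts have almost the same neighbours.
-/

namespace Pool.Agent.H24Z.Internal

open Finset

/-- cyclic difference -/
def diff (n a b : ℕ) : ℕ := if b ≤ a then a - b else a + n - b

/-- the connection set -/
def good (d N t : ℕ) : Prop :=
  (1 ≤ t ∧ t ≤ d / 2) ∨ (2 * N - d / 2 ≤ t ∧ t < 2 * N) ∨ (d % 2 = 1 ∧ t = N)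

instance (d N t : ℕ) : Decidable (good d N t) := by unfold good; infer_instance

def G (d N : ℕ) (h : d < N) : SimpleGraph (Fin (2 * N)) where
  Adj a b := good d N (diff (2 * N) a b)
  symm := ⟨by
    intro a b
    have := a.2
    have := b.2
    unfold good diff
    split_ifs <;> omega⟩
  loopless := ⟨by
    intro a
    unfold good diff
    split_ifs <;> omega⟩

instance (d N : ℕ) (h : d < N) : DecidableRel (G d N h).Adj :=
  fun a b => inferInstanceAs (Decidable (good d N (diff (2 * N) a b)))

lemma card_good (d N : ℕ) (h : d < N) : ((range (2 * N)).filter (good d N)).card = d := by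
  have : (range (2 * N)).filter (good d N) =
      (Icc 1 (d / 2) ∪ Ico (2 * N - d / 2) (2 * N)) ∪ Ico N (N + d % 2) := by
    ext t
    simp only [good, mem_filter, mem_range, mem_union, mem_Icc, mem_Ico]
    omega
  rw [this, card_union_of_disjoint, card_union_of_disjoint]
  · simp only [Nat.card_Icc, Nat.card_Ico]; omega
  · rw [disjoint_left]; intro t; simp only [mem_Icc, mem_Ico]; omega
  · rw [disjoint_left]; intro t; simp only [mem_union, mem_Icc, mem_Ico]; omega

lemma diff_lt {n a b : ℕ} (ha : a < n) (hb : b < n) : diff n a b < n := by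
  unfold diff; split_ifs <;> omega

lemma diff_diff {n a b : ℕ} (ha : a < n) (hb : b < n) : diff n a (diff n a b) = b := by
  unfold diff; split_ifs <;> omega

lemma regular (d N : ℕ) (h : d < N) : (G d N h).IsRegularOfDegree d := by
  intro a
  rw [← SimpleGraph.card_neighborFinset_eq_degree]
  conv_rhs => rw [← card_good d N h]
  apply Finset.card_bij (fun (b : Fin (2 * N)) _ => diff (2 * N) a b)
  · intro b hb
    rw [SimpleGraph.mem_neighborFinset] at hb
    exact mem_filter.mpr ⟨mem_range.mpr (diff_lt a.2 b.2), hb⟩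
  · intro b _ c _ hbc
    apply Fin.ext
    rw [← diff_diff a.2 b.2, hbc, diff_diff a.2 c.2]
  · intro t ht
    obtain ⟨ht1, ht2⟩ := mem_filter.mp ht
    rw [mem_range] at ht1
    refine ⟨⟨diff (2 * N) a t, diff_lt a.2 ht1⟩, ?_, diff_diff a.2 ht1⟩
    rw [SimpleGraph.mem_neighborFinset]
    show good d N (diff (2 * N) a (diff (2 * N) a t))
    rw [diff_diff a.2 ht1]
    exact ht2

/-- two adjacent vertices in different parts whose neighbourhoods nearly coincide -/
lemma key {V : Type} [Fintype V] [DecidableEq V] (H : SimpleGraph V) [DecidableRel H.Adj] (d : ℕ)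
    (A : Finset V) (v w : V) (hv : v ∈ A) (hw : w ∉ A) (hvw : H.Adj v w)
    (hU : (H.neighborFinset v ∪ H.neighborFinset w).card ≤ d + 3) :
    (H.neighborFinset v ∩ A).card + (H.neighborFinset w ∩ Aᶜ).card ≤ d + 1 := by
  have hdis : Disjoint (H.neighborFinset v ∩ A) (H.neighborFinset w ∩ Aᶜ) := by
    rw [disjoint_left]
    intro x hx hx'
    simp only [mem_inter, mem_compl] at hx hx'
    exact hx'.2 hx.2
  rw [← card_union_of_disjoint hdis]
  have hsub : (H.neighborFinset v ∩ A) ∪ (H.neighborFinset w ∩ Aᶜ) ⊆
      (H.neighborFinset v ∪ H.neighborFinset w) \ {v, w} := by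
    intro x hx
    simp only [mem_union, mem_inter, mem_compl, mem_sdiff, mem_insert, mem_singleton,
      SimpleGraph.mem_neighborFinset, not_or] at hx ⊢
    rcases hx with ⟨h1, h2⟩ | ⟨h1, h2⟩
    · exact ⟨Or.inl h1, h1.ne', fun h => hw (h ▸ h2)⟩
    · exact ⟨Or.inr h1, fun h => h2 (h ▸ hv), h1.ne'⟩
  have h2 : ({v, w} : Finset V) ⊆ H.neighborFinset v ∪ H.neighborFinset w := by
    intro x hx
    simp only [mem_insert, mem_singleton, mem_union, SimpleGraph.mem_neighborFinset] at hx ⊢
    rcases hx with rfl | rfl
    · exact Or.inr hvw.symm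
    · exact Or.inl hvw
  have h3 := card_le_card hsub
  rw [card_sdiff_of_subset h2, card_pair hvw.ne] at h3
  omega

lemma union_le (d N : ℕ) (h : d < N) (v w : Fin (2 * N)) (hvw : w.val = v.val + 1) :
    ((G d N h).neighborFinset v ∪ (G d N h).neighborFinset w).card ≤ d + 3 := by
  have hd : ((G d N h).neighborFinset v).card = d := by
    rw [SimpleGraph.card_neighborFinset_eq_degree]; exact regular d N h v
  have hsd : ((G d N h).neighborFinset w \ (G d N h).neighborFinset v).card ≤ 3 := by
    calc _ ≤ ({0, 2 * N - d / 2 - 1, N - 1} : Finset ℕ).card := by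
          apply card_le_card_of_injOn (fun b : Fin (2 * N) => diff (2 * N) v b)
          · intro b hb
            simp only [coe_sdiff, Set.mem_sdiff, mem_coe, SimpleGraph.mem_neighborFinset] at hb
            obtain ⟨h1, h2⟩ := hb
            have h1' : good d N (diff (2 * N) w b) := h1
            have h2' : ¬ good d N (diff (2 * N) v b) := h2
            have := b.2
            have := w.2
            simp only [coe_insert, coe_singleton, Set.mem_insert_iff, Set.mem_singleton_iff]
            unfold good diff at *
            split_ifs at * <;> omega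
          · intro b _ c _ hbc
            apply Fin.ext
            simp only at hbc
            rw [← diff_diff v.2 b.2, hbc, diff_diff v.2 c.2]
      _ ≤ 3 := card_le_three
  have := card_sdiff_add_card ((G d N h).neighborFinset w) ((G d N h).neighborFinset v)
  rw [union_comm]
  omega

lemma exists_step {n : ℕ} (A : Finset (Fin n)) (h1 : A.Nonempty) (h2 : Aᶜ.Nonempty) :
    ∃ v w : Fin n, w.val = v.val + 1 ∧ ((v ∈ A ∧ w ∉ A) ∨ (v ∉ A ∧ w ∈ A)) := by
  by_contra hcon
  push Not at hcon
  obtain ⟨a, ha⟩ := h1
  obtain ⟨b, hb⟩ := h2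
  rw [mem_compl] at hb
  have hn : 0 < n := a.pos
  have : ∀ i (hi : i < n), (⟨i, hi⟩ ∈ A ↔ (⟨0, hn⟩ : Fin n) ∈ A) := by
    intro i
    induction i with
    | zero => intro _; rfl
    | succ i ih =>
      intro hi
      have h := hcon ⟨i, by omega⟩ ⟨i + 1, hi⟩ rfl
      rw [← ih (by omega)]
      tauto
  exact hb ((this b.1 b.2).mpr ((this a.1 a.2).mp ha))

theorem main (d N : ℕ) (h : d < N) (A : Finset (Fin (2 * N))) (h1 : A.Nonempty)
    (h2 : Aᶜ.Nonempty)
    (hA : ∀ v ∈ A, d + 2 ≤ 2 * ((G d N h).neighborFinset v ∩ A).card)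
    (hB : ∀ v ∈ Aᶜ, d + 2 ≤ 2 * ((G d N h).neighborFinset v ∩ Aᶜ).card) : False := by
  have hd : 2 ≤ d := by
    obtain ⟨a, ha⟩ := h1
    have h3 := hA a ha
    have h4 : ((G d N h).neighborFinset a ∩ A).card ≤ ((G d N h).neighborFinset a).card :=
      card_le_card inter_subset_left
    rw [SimpleGraph.card_neighborFinset_eq_degree, regular d N h a] at h4
    omega
  obtain ⟨v, w, hvw, hh⟩ := exists_step A h1 h2
  have hadj : (G d N h).Adj w v := by
    show good d N (diff (2 * N) w v)
    unfold good diff
    split_ifs <;> omega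
  have hU := union_le d N h v w hvw
  rcases hh with ⟨hv, hw⟩ | ⟨hv, hw⟩
  · have := key _ d A v w hv hw hadj.symm hU
    have := hA v hv
    have := hB w (mem_compl.mpr hw)
    omega
  · rw [union_comm] at hU
    have := key _ d A w v hw hv hadj hU
    have := hA w hw
    have := hB v (mem_compl.mpr hv)
    omega

end Pool.Agent.H24Z.Internal
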