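import Mathlib

set_option autoImplicit false

/-!
A split graph on 40 vertices (a clique of 15 vertices in five blocks of three, an independent set of
25 vertices in five blocks of five, block `j` of the independent set joined to blocks `j` and `j - 1`
of the clique) all of whose maximal cliques have at least 7 vertices and all of whose maximal
independent sets have at least 16 vertices.
-/

namespace Pool.Agent.H24Z.LowerRamsey

def rel (i j : ℕ) : Bool :=
  (i < 15 && j < 15) || (i < 15 && 15 ≤ j && ((j - 15) / 5 + 5 - i / 3) % 5 ≤ 1)

def adj (i j : Fin 40) : Bool := (i != j) && (rel i j || rel j i)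

def G : SimpleGraph (Fin 40) where
  Adj i j := adj i j = true
  symm := ⟨by decide +kernel⟩
  loopless := ⟨by decide +kernel⟩

instance : DecidableRel G.Adj := fun i j => inferInstanceAs (Decidable (adj i j = true))

def K : Finset (Fin 40) := Finset.univ.filter fun i => i.val < 15
def W : Finset (Fin 40) := Finset.univ.filter fun i => 15 ≤ i.val
def star (w : Fin 40) : Finset (Fin 40) := Finset.univ.filter fun i => i = w ∨ adj w i = true
def costar (v : Fin 40) : Finset (Fin 40) := Finset.univ.filter fun i => adj v i = false

lemma K_clique : ∀ i ∈ K, ∀ j ∈ K, i ≠ j → adj i j = true := by decide +kernel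
lemma W_indep : ∀ i ∈ W, ∀ j ∈ W, adj i j = false := by decide +kernel
lemma K_card : K.card = 15 := by decide +kernel
lemma W_card : W.card = 25 := by decide +kernel
lemma star_sub : ∀ w ∈ W, (star w).card = 7 ∧ ∀ i ∈ star w, i = w ∨ i ∈ K := by decide +kernel
lemma costar_sub : ∀ v ∈ K, (costar v).card = 16 ∧ ∀ i ∈ costar v, i = v ∨ i ∈ W := by
  decide +kernel
lemma K_or_W : ∀ i, i ∈ K ∨ i ∈ W := by decide +kernel

lemma cliques (s : Finset (Fin 40))
    (hs : Maximal (fun t : Finset (Fin 40) => G.IsClique (t : Set (Fin 40))) s) : 6 < s.card := by
  by_cases h : ∃ w ∈ s, w ∈ W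
  · obtain ⟨w, hw, hW⟩ := h
    obtain ⟨hc, hsub⟩ := star_sub w hW
    have h1 : s ≤ star w := by
      intro i hi
      simp only [star, Finset.mem_filter, Finset.mem_univ, true_and]
      by_cases hiw : i = w
      · exact Or.inl hiw
      · exact Or.inr (hs.prop hw hi (Ne.symm hiw))
    have h2 : G.IsClique (star w : Set (Fin 40)) := by
      intro i hi j hj hij
      have hi' : i = w ∨ adj w i = true := by simpa [star] using hi
      have hj' : j = w ∨ adj w j = true := by simpa [star] using hj
      rcases hsub i hi with rfl | hiK
      · rcases hj' with rfl | h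
        · exact absurd rfl hij
        · exact h
      · rcases hsub j hj with rfl | hjK
        · rcases hi' with rfl | h
          · exact absurd rfl hij
          · exact G.symm.symm _ _ h
        · exact K_clique i hiK j hjK hij
    have := Finset.card_le_card (hs.le_of_ge h2 h1)
    omega
  · have h1 : s ≤ K := by
      intro i hi
      rcases K_or_W i with h' | h'
      · exact h'
      · exact absurd ⟨i, hi, h'⟩ h
    have h2 : G.IsClique (K : Set (Fin 40)) := fun i hi j hj hij => K_clique i hi j hj hij
    have := Finset.card_le_card (hs.le_of_ge h2 h1)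
    rw [K_card] at this
    omega

lemma indeps (s : Finset (Fin 40))
    (hs : Maximal (fun t : Finset (Fin 40) => G.IsIndepSet (t : Set (Fin 40))) s) :
    15 < s.card := by
  have hloop : ∀ i, adj i i = false := by decide +kernel
  have hsymm : ∀ i j, adj i j = adj j i := by decide +kernel
  by_cases h : ∃ v ∈ s, v ∈ K
  · obtain ⟨v, hv, hK⟩ := h
    obtain ⟨hc, hsub⟩ := costar_sub v hK
    have h1 : s ≤ costar v := by
      intro i hi
      simp only [costar, Finset.mem_filter, Finset.mem_univ, true_and]
      by_cases hiv : i = v
      · rw [hiv]; exact hloop v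
      · have := hs.prop hv hi (Ne.symm hiv)
        exact Bool.eq_false_iff.mpr this
    have h2 : G.IsIndepSet (costar v : Set (Fin 40)) := by
      intro i hi j hj _
      have hi' : adj v i = false := by simpa [costar] using hi
      have hj' : adj v j = false := by simpa [costar] using hj
      apply Bool.eq_false_iff.mp
      rcases hsub i hi with rfl | hiW
      · exact hj'
      · rcases hsub j hj with rfl | hjW
        · rw [hsymm]; exact hi'
        · exact W_indep i hiW j hjW
    have := Finset.card_le_card (hs.le_of_ge h2 h1)
    omega
  · have h1 : s ≤ W := by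
      intro i hi
      rcases K_or_W i with h' | h'
      · exact absurd ⟨i, hi, h'⟩ h
      · exact h'
    have h2 : G.IsIndepSet (W : Set (Fin 40)) := fun i hi j hj _ =>
      Bool.eq_false_iff.mp (W_indep i hi j hj)
    have := Finset.card_le_card (hs.le_of_ge h2 h1)
    rw [W_card] at this
    omega

end Pool.Agent.H24Z.LowerRamsey
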